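import Mathlib

set_option autoImplicit false

namespace Pool.Agent.Results.MP_a85856_gt.RowsColumns

open Set Pointwise

/-- The `p`-norm. -/
noncomputable def pn (p : ℝ) {n : ℕ} (x : Fin n → ℝ) : ℝ := (∑ i, |x i| ^ p) ^ (1 / p)

/-- Circumradius with respect to the unit ball of the `p`-norm. -/
noncomputable def R (p : ℝ) {n : ℕ} (K : Set (Fin n → ℝ)) : ℝ :=
  sInf {l : ℝ | 0 ≤ l ∧ ∃ t : Fin n → ℝ, K ⊆ t +ᵥ l • {x | pn p x ≤ 1}}

lemma pn4 {n : ℕ} (x : Fin n → ℝ) : pn 4 x ^ 4 = ∑ i, x i ^ 4 := by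
  have h : ∀ i, |x i| ^ (4 : ℝ) = x i ^ 4 := fun i => by
    rw [show (4 : ℝ) = ((4 : ℕ) : ℝ) by norm_num, Real.rpow_natCast]
    exact Even.pow_abs (by decide) _
  simp only [pn, h]
  rw [show (1 / 4 : ℝ) = ((4 : ℕ) : ℝ)⁻¹ by norm_num]
  exact Real.rpow_inv_natCast_pow (Finset.sum_nonneg fun i _ => by positivity) (by norm_num)

lemma pn_nonneg {n : ℕ} (x : Fin n → ℝ) : 0 ≤ pn 4 x :=
  Real.rpow_nonneg (Finset.sum_nonneg fun i _ => by positivity) _

lemma mem_iff {n : ℕ} {l : ℝ} (hl : 0 < l) (t x : Fin n → ℝ) (h : ∑ i, (x i - t i) ^ 4 ≤ l ^ 4) :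
    x ∈ t +ᵥ l • {x : Fin n → ℝ | pn 4 x ≤ 1} := by
  refine ⟨x - t, ⟨l⁻¹ • (x - t), ?_, ?_⟩, by simp⟩
  · show pn 4 (l⁻¹ • (x - t)) ≤ 1
    refine le_of_pow_le_pow_left₀ (n := 4) (by norm_num) zero_le_one ?_
    rw [pn4]
    simp only [Pi.smul_apply, Pi.sub_apply, smul_eq_mul, mul_pow]
    rw [← Finset.mul_sum, inv_pow, inv_mul_le_iff₀ (by positivity)]
    simpa using h
  · simp [smul_smul, hl.ne']

lemma of_mem {n : ℕ} {l : ℝ} (t x : Fin n → ℝ)
    (h : x ∈ t +ᵥ l • {x : Fin n → ℝ | pn 4 x ≤ 1}) : ∑ i, (x i - t i) ^ 4 ≤ l ^ 4 := by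
  obtain ⟨_, ⟨y, hy, rfl⟩, rfl⟩ := h
  have h1 : pn 4 y ^ 4 ≤ 1 := pow_le_one₀ (pn_nonneg y) hy
  rw [pn4] at h1
  simp only [vadd_eq_add, Pi.add_apply, Pi.smul_apply, smul_eq_mul, add_sub_cancel_left, mul_pow]
  rw [← Finset.mul_sum]
  exact mul_le_of_le_one_right (by positivity) h1

lemma conv {n : ℕ} (t : Fin n → ℝ) (c : ℝ) :
    Convex ℝ {x : Fin n → ℝ | ∑ i, (x i - t i) ^ 4 ≤ c} := by
  intro x hx y hy a b ha hb hab
  simp only [mem_setOf_eq, Pi.add_apply, Pi.smul_apply, smul_eq_mul] at *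
  have h : ∀ i, (a * x i + b * y i - t i) ^ 4 ≤ a * (x i - t i) ^ 4 + b * (y i - t i) ^ 4 := by
    intro i
    have := (Even.convexOn_pow (𝕜 := ℝ) (n := 4) (by decide)).2 (mem_univ (x i - t i))
      (mem_univ (y i - t i)) ha hb hab
    simp only [smul_eq_mul] at this
    have e : a * x i + b * y i - t i = a * (x i - t i) + b * (y i - t i) := by
      linear_combination (t i) * hab
    rw [e]; exact this
  refine (Finset.sum_le_sum fun i _ => h i).trans ?_
  rw [Finset.sum_add_distrib, ← Finset.mul_sum, ← Finset.mul_sum]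
  have := mul_le_mul_of_nonneg_left hx ha
  have := mul_le_mul_of_nonneg_left hy hb
  have : c = a * c + b * c := by rw [← add_mul, hab, one_mul]
  linarith

lemma R_le {n : ℕ} {K : Set (Fin n → ℝ)} {l : ℝ} (hl : 0 < l) (t : Fin n → ℝ)
    (h : ∀ x ∈ K, ∑ i, (x i - t i) ^ 4 ≤ l ^ 4) : R 4 K ≤ l :=
  csInf_le ⟨0, fun _ h => h.1⟩ ⟨hl.le, t, fun x hx => mem_iff hl t x (h x hx)⟩

lemma R_nonneg {n : ℕ} (K : Set (Fin n → ℝ)) : 0 ≤ R 4 K :=
  Real.sInf_nonneg fun _ h => h.1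

section
variable {m n : ℕ} (f : Fin n → Fin m)

/-- indicator of a fibre -/
def ind (i : Fin m) : Fin n → ℝ := fun k => if f k = i then 1 else 0

lemma low (hm : m = 65) (hn : n = 4225) : 12 / 5 + 1 / 1000 ≤ R 4 (convexHull ℝ (range (ind f))) := by
  refine le_csInf ⟨65, by norm_num, 0, fun x hx => mem_iff (by norm_num) 0 x ?_⟩ ?_
  · refine convexHull_min ?_ (conv 0 (65 ^ 4)) hx
    rintro _ ⟨i, rfl⟩
    have : ∀ k, (ind f i k - (0 : Fin n → ℝ) k) ^ 4 ≤ 1 := fun k => by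
      unfold ind; split_ifs <;> simp
    refine (Finset.sum_le_sum fun k _ => this k).trans ?_
    simp [hn]; norm_num
  · rintro l ⟨hl, t, ht⟩
    have h1 : ∀ i, ∑ k, (ind f i k - t k) ^ 4 ≤ l ^ 4 := fun i =>
      of_mem t _ (ht (subset_convexHull ℝ _ ⟨i, rfl⟩))
    have h2 := Finset.sum_le_sum fun i (_ : i ∈ Finset.univ) => h1 i
    rw [Finset.sum_comm] at h2
    have h3 : ∀ k, (64 / 125 : ℝ) ≤ ∑ i, (ind f i k - t k) ^ 4 := by
      intro k
      have e : ∀ i, (ind f i k - t k) ^ 4 =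
          t k ^ 4 + if f k = i then (1 - t k) ^ 4 - t k ^ 4 else 0 := by
        intro i; unfold ind; split_ifs <;> ring
      simp only [e, Finset.sum_add_distrib, Finset.sum_const, Finset.sum_ite_eq, Finset.mem_univ,
        if_true, Finset.card_univ, Fintype.card_fin, hm, nsmul_eq_mul]
      push_cast
      nlinarith [sq_nonneg ((t k - 1 / 5) * (t k + 1 / 5)), sq_nonneg (t k - 1 / 5),
        sq_nonneg ((t k - 1 / 5) * t k)]
    have h4 := (Finset.sum_le_sum fun k (_ : k ∈ Finset.univ) => h3 k).trans h2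
    simp only [Finset.sum_const, Finset.card_univ, Fintype.card_fin, hm, hn, nsmul_eq_mul] at h4
    push_cast at h4
    refine le_of_pow_le_pow_left₀ (n := 4) (by norm_num) hl ?_
    linarith

lemma up (hm : m = 65) (e : Fin m × Fin m ≃ Fin n) :
    R 4 (convexHull ℝ (range (ind fun k => (e.symm k).1)) +
      convexHull ℝ (range (ind fun k => (e.symm k).2))) ≤ 57 / 20 := by
  refine R_le (by norm_num) (fun _ => 1 / 4) fun x hx => ?_
  rw [← convexHull_add] at hx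
  refine convexHull_min ?_ (conv _ _) hx
  rintro _ ⟨_, ⟨i, rfl⟩, _, ⟨j, rfl⟩, rfl⟩
  simp only [mem_setOf_eq, Pi.add_apply]
  rw [← e.sum_comp, Fintype.sum_prod_type]
  have h : ∀ a b, (ind (fun k => (e.symm k).1) i (e (a, b)) +
      ind (fun k => (e.symm k).2) j (e (a, b)) - 1 / 4) ^ 4 =
      (1 / 256 + (if a = i then 80 / 256 else 0)) + (if b = j then
        (80 / 256 + (if a = i then 2240 / 256 else 0)) else 0) := by
    intro a b
    simp only [ind, Equiv.symm_apply_apply]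
    split_ifs <;> norm_num
  simp only [h, Finset.sum_add_distrib, Finset.sum_const, Finset.sum_ite_eq', Finset.mem_univ,
    if_true, Finset.card_univ, Fintype.card_fin, nsmul_eq_mul, ← Finset.mul_sum]
  rw [hm]
  norm_num

end

theorem result : ∃ p : ℝ, 2 < p ∧ ∃ n j : ℕ, 1 ≤ n ∧ 1 ≤ j ∧
    ∃ K : Fin j → Set (Fin n → ℝ),
      (∀ i, (K i).Nonempty ∧ IsCompact (K i) ∧ Convex ℝ (K i)) ∧
      R p (∑ i, K i) < pn p (fun i => R p (K i)) := by
  obtain ⟨m, hm⟩ : ∃ m : ℕ, m = 65 := ⟨_, rfl⟩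
  have hn : m * m = 4225 := by rw [hm]
  let e : Fin m × Fin m ≃ Fin (m * m) := finProdFinEquiv
  have hb : ∀ f : Fin (m * m) → Fin m, (convexHull ℝ (range (ind f))).Nonempty ∧
      IsCompact (convexHull ℝ (range (ind f))) ∧ Convex ℝ (convexHull ℝ (range (ind f))) :=
    fun f => ⟨⟨_, subset_convexHull ℝ _ ⟨⟨0, by omega⟩, rfl⟩⟩,
      (finite_range _).isCompact_convexHull ℝ, convex_convexHull ℝ _⟩
  refine ⟨4, by norm_num, m * m, 2, by omega, by norm_num,
    ![convexHull ℝ (range (ind fun k => (e.symm k).1)),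
      convexHull ℝ (range (ind fun k => (e.symm k).2))], ?_, ?_⟩
  · intro i
    fin_cases i
    · exact hb _
    · exact hb _
  · refine lt_of_pow_lt_pow_left₀ 4 (pn_nonneg _) ?_
    rw [pn4, Fin.sum_univ_two, Fin.sum_univ_two]
    simp only [Matrix.cons_val_zero, Matrix.cons_val_one]
    have h1 := pow_le_pow_left₀ (by norm_num) (low (fun k => (e.symm k).1) hm hn) 4
    have h2 := pow_le_pow_left₀ (by norm_num) (low (fun k => (e.symm k).2) hm hn) 4
    have h3 := pow_le_pow_left₀ (R_nonneg _) (up hm e) 4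
    norm_num at h1 h2 h3
    linarith

end Pool.Agent.Results.MP_a85856_gt.RowsColumns
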